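import Mathlib

set_option autoImplicit false

namespace Pool.Agent.H290R3

open FreeGroup

section Decomp

variable {α : Type*} [DecidableEq α]

/-- Cancellation in the product of two reduced words. -/
theorem exists_decomp_list (L1 : List (α × Bool)) : ∀ (L2 : List (α × Bool)),
    IsReduced L1 → IsReduced L2 →
    ∃ u c v : List (α × Bool), L1 = u ++ c ∧ L2 = invRev c ++ v ∧ IsReduced (u ++ v) := by
  induction L1 using List.reverseRecOn with
  | nil =>
    intro L2 _ h2
    exact ⟨[], [], L2, by simp, by simp [invRev], by simpa using h2⟩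
  | append_singleton l a ih =>
    intro L2 h1 h2
    cases L2 with
    | nil => exact ⟨l ++ [a], [], [], by simp, by simp [invRev], by simpa using h1⟩
    | cons b L2' =>
      by_cases hab : a.1 = b.1 → a.2 = b.2
      · refine ⟨l ++ [a], [], b :: L2', by simp, by simp [invRev], ?_⟩
        rw [FreeGroup.IsReduced, List.isChain_append]
        refine ⟨h1, h2, ?_⟩
        intro x hx y hy
        simp at hx hy
        subst hx; subst hy
        exact hab
      · push Not at hab
        have h1' : IsReduced l := List.IsChain.left_of_append h1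
        have h2' : IsReduced L2' := List.IsChain.right_of_append (l₁ := [b]) h2
        obtain ⟨u, c, v, e1, e2, e3⟩ := ih L2' h1' h2'
        refine ⟨u, c ++ [a], v, by simp [e1], ?_, e3⟩
        have hb : b = (a.1, !a.2) := by
          ext
          · exact hab.1.symm
          · have := hab.2
            revert this
            cases a.2 <;> cases b.2 <;> simp
        subst e2
        simp [invRev, hb]

theorem exists_decomp (x y : FreeGroup α) :
    ∃ u c v : List (α × Bool), x.toWord = u ++ c ∧ y.toWord = invRev c ++ v ∧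
      (x * y).toWord = u ++ v := by
  obtain ⟨u, c, v, e1, e2, e3⟩ := exists_decomp_list x.toWord y.toWord
    isReduced_toWord isReduced_toWord
  refine ⟨u, c, v, e1, e2, ?_⟩
  have hx : x = mk u * mk c := by rw [mul_mk, ← e1, mk_toWord]
  have hy : y = (mk c)⁻¹ * mk v := by rw [inv_mk, mul_mk, ← e2, mk_toWord]
  have hxy : x * y = mk (u ++ v) := by
    rw [hx, hy, ← mul_mk]; group
  rw [hxy, toWord_mk, e3.reduce_eq]

theorem toWord_mul_of_isReduced {x y : FreeGroup α} (h : IsReduced (x.toWord ++ y.toWord)) :
    (x * y).toWord = x.toWord ++ y.toWord := by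
  rw [toWord_mul, h.reduce_eq]

/-- If the last letter of `x` is not the inverse of the first letter of `y`, no cancellation. -/
theorem toWord_mul_of_last {x y : FreeGroup α} {b : α × Bool} {l : List (α × Bool)}
    (hy : y.toWord = b :: l) (h : x.toWord.getLast? ≠ some (b.1, !b.2)) :
    (x * y).toWord = x.toWord ++ y.toWord := by
  apply toWord_mul_of_isReduced
  rw [FreeGroup.IsReduced, List.isChain_append]
  refine ⟨isReduced_toWord, isReduced_toWord, ?_⟩
  intro a ha c hc
  rw [hy] at hc
  simp at hc
  subst hc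
  intro h1
  by_contra h2
  apply h
  have : a = (b.1, !b.2) := by
    ext
    · exact h1
    · revert h2
      cases a.2 <;> cases b.2 <;> simp
  rw [← this]
  exact ha

end Decomp

section Period

variable {β : Type*}

/-- `p` is a period of the list `t`. -/
def Per (p : ℕ) (t : List β) : Prop := ∀ i, i + p < t.length → t[i]? = t[i + p]?

theorem Per.factor {p : ℕ} {s t : List β} (h : Per p t) (hs : s <:+: t) : Per p s := by
  obtain ⟨a, b, rfl⟩ := hs
  intro i hi
  have h1 := h (a.length + i) (by simp; omega)
  have e1 : (a ++ s ++ b)[a.length + i]? = s[i]? := by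
    rw [List.append_assoc, List.getElem?_append_right (by omega)]
    rw [show a.length + i - a.length = i by omega]
    rw [List.getElem?_append_left (by omega)]
  have e2 : (a ++ s ++ b)[a.length + i + p]? = s[i + p]? := by
    rw [List.append_assoc, List.getElem?_append_right (by omega)]
    rw [show a.length + i + p - a.length = i + p by omega]
    rw [List.getElem?_append_left (by omega)]
  rw [← e1, ← e2]
  exact h1

theorem Per.map {γ : Type*} {p : ℕ} {t : List β} (h : Per p t) (f : β → γ) : Per p (t.map f) := by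
  intro i hi
  rw [List.length_map] at hi
  rw [List.getElem?_map, List.getElem?_map, h i hi]

theorem Per.reverse {p : ℕ} {t : List β} (h : Per p t) : Per p t.reverse := by
  intro i hi
  rw [List.length_reverse] at hi
  rw [List.getElem?_reverse (by omega), List.getElem?_reverse (by omega)]
  have := h (t.length - 1 - (i + p)) (by omega)
  rw [this]
  congr 1
  omega

/-- every factor of `l` has exponent (length divided by period) at most `m`. -/
def ExpLe (m : ℕ) (l : List β) : Prop :=
  ∀ t, t <:+: l → ∀ p, 1 ≤ p → Per p t → t.length ≤ m * p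

theorem ExpLe.factor {m : ℕ} {l l' : List β} (h : ExpLe m l) (hl : l' <:+: l) : ExpLe m l' :=
  fun t ht p hp hper => h t (ht.trans hl) p hp hper

theorem ExpLe.mono {m n : ℕ} {l : List β} (h : ExpLe m l) (hmn : m ≤ n) : ExpLe n l :=
  fun t ht p hp hper => (h t ht p hp hper).trans (Nat.mul_le_mul_right p hmn)

theorem expLe_length (l : List β) : ExpLe l.length l := by
  intro t ht p hp _
  calc t.length ≤ l.length := ht.length_le
    _ = l.length * 1 := by ring
    _ ≤ l.length * p := Nat.mul_le_mul_left _ hp

theorem expLe_nil (m : ℕ) : ExpLe m ([] : List β) := by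
  intro t ht p hp _
  have : t = [] := List.eq_nil_of_infix_nil ht
  simp [this]

theorem ExpLe.append {m n : ℕ} {l1 l2 : List β} (h1 : ExpLe m l1) (h2 : ExpLe n l2) :
    ExpLe (m + n) (l1 ++ l2) := by
  intro t ht p hp hper
  obtain ⟨a, b, hab⟩ := ht
  -- split t
  have key : ∃ t1 t2, t = t1 ++ t2 ∧ t1 <:+: l1 ∧ t2 <:+: l2 := by
    rw [List.append_assoc] at hab
    rw [List.append_eq_append_iff] at hab
    rcases hab with ⟨c, hc1, hc2⟩ | ⟨c, hc1, hc2⟩
    · -- l1 = a ++ c, t ++ b = c ++ l2
      rw [List.append_eq_append_iff] at hc2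
      rcases hc2 with ⟨d, hd1, hd2⟩ | ⟨d, hd1, hd2⟩
      · -- c = t ++ d
        exact ⟨t, [], by simp, ⟨a, d, by simp [hc1, hd1]⟩, List.nil_infix⟩
      · -- t = c ++ d, l2 = d ++ b
        exact ⟨c, d, hd1, ⟨a, [], by simp [hc1]⟩, ⟨[], b, by simp [hd2]⟩⟩
    · -- a = l1 ++ c, l2 = c ++ (t ++ b)
      exact ⟨[], t, by simp, List.nil_infix, ⟨c, b, by simp [hc2]⟩⟩
  obtain ⟨t1, t2, rfl, ht1, ht2⟩ := key
  have hp1 := h1 t1 ht1 p hp (hper.factor ⟨[], t2, by simp⟩)
  have hp2 := h2 t2 ht2 p hp (hper.factor ⟨t1, [], by simp⟩)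
  rw [List.length_append, add_mul]
  omega

theorem ExpLe.invRev {α : Type*} {m : ℕ} {l : List (α × Bool)} (h : ExpLe m l) :
    ExpLe m (FreeGroup.invRev l) := by
  intro t ht p hp hper
  have h1 : FreeGroup.invRev t <:+: l := by
    obtain ⟨a, b, hab⟩ := ht
    refine ⟨FreeGroup.invRev b, FreeGroup.invRev a, ?_⟩
    have := congrArg FreeGroup.invRev hab
    rw [FreeGroup.invRev_invRev] at this
    rw [← this]
    simp [FreeGroup.invRev]
  have h2 : Per p (FreeGroup.invRev t) := by
    unfold FreeGroup.invRev
    exact (hper.map _).reverse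
  have := h _ h1 p hp h2
  rwa [FreeGroup.invRev_length] at this

/-- A list with distinct entries has exponent at most one. -/
theorem expLe_one_of_nodup {l : List β} (h : l.Nodup) : ExpLe 1 l := by
  intro t ht p hp hper
  by_contra hcon
  rw [one_mul, not_le] at hcon
  have hn : t.Nodup := h.sublist ht.sublist
  have h1 := hper 0 (by omega)
  rw [zero_add, List.getElem?_eq_getElem (by omega), List.getElem?_eq_getElem hcon] at h1
  simp only [Option.some.injEq] at h1
  have := (List.Nodup.getElem_inj_iff hn).mp h1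
  omega

end Period

section Gap

theorem gap_card (M J : ℕ) (T : Finset ℕ) (h1 : ∀ a ∈ T, 1 ≤ a ∧ a < 2 ^ J)
    (h2 : ∀ a ∈ T, ∀ b ∈ T, a < b → b ≤ M * (b - a)) (hM : 1 ≤ M) : T.card ≤ J * (2 * M) := by
  have hinj : Set.InjOn (fun a => (Nat.log 2 a, M * a / 2 ^ (Nat.log 2 a))) (T : Set ℕ) := by
    have key : ∀ a ∈ T, ∀ b ∈ T, a < b →
        (Nat.log 2 a, M * a / 2 ^ (Nat.log 2 a)) ≠ (Nat.log 2 b, M * b / 2 ^ (Nat.log 2 b)) := by
      intro a ha b hb hab heq
      rw [Prod.mk.injEq] at heq
      obtain ⟨e1, e2⟩ := heq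
      have hb2 := h2 a ha b hb hab
      have hlog : 2 ^ (Nat.log 2 b) ≤ b := Nat.pow_log_le_self 2 (by have := (h1 b hb).1; omega)
      rw [e1] at e2
      have hpos : 0 < 2 ^ (Nat.log 2 b) := by positivity
      have h3 : M * a + 2 ^ (Nat.log 2 b) ≤ M * b := by
        have : M * (b - a) = M * b - M * a := Nat.mul_sub M b a
        have h4 : M * a ≤ M * b := Nat.mul_le_mul_left M hab.le
        omega
      have h5 : (M * a + 2 ^ (Nat.log 2 b)) / 2 ^ (Nat.log 2 b) ≤ M * b / 2 ^ (Nat.log 2 b) :=
        Nat.div_le_div_right h3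
      rw [Nat.add_div_right _ hpos] at h5
      omega
    intro a ha b hb heq
    rcases lt_trichotomy a b with h | h | h
    · exact absurd heq (key a ha b hb h)
    · exact h
    · exact absurd heq.symm (key b hb a ha h)
  have hmaps : ∀ a ∈ T, (fun a => (Nat.log 2 a, M * a / 2 ^ (Nat.log 2 a))) a ∈
      Finset.range J ×ˢ Finset.range (2 * M) := by
    intro a ha
    obtain ⟨ha1, ha2⟩ := h1 a ha
    rw [Finset.mem_product, Finset.mem_range, Finset.mem_range]
    constructor
    · exact Nat.log_lt_of_lt_pow (by omega) ha2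
    · have hlt : a < 2 ^ (Nat.log 2 a + 1) := Nat.lt_pow_succ_log_self (by norm_num) a
      rw [Nat.div_lt_iff_lt_mul (by positivity)]
      rw [pow_succ] at hlt
      nlinarith
  have := Finset.card_le_card_of_injOn _ hmaps hinj
  rwa [Finset.card_product, Finset.card_range, Finset.card_range] at this

end Gap

end Pool.Agent.H290R3
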