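import Mathlib
import Pool.Agent.H290R3.FGWord

set_option autoImplicit false

namespace Pool.Agent.H290R3

open FreeGroup
open scoped Pointwise

/-- the set of lengths of common borders -/
noncomputable def borderSet (s x : FreeGroup ℕ) : Finset ℕ :=
  (Finset.Icc 1 s.norm).filter (fun l => s.toWord.drop (s.norm - l) = x.toWord.take l)

theorem borderSet_card {M J : ℕ} {s x : FreeGroup ℕ} (hM : 1 ≤ M) (hs : ExpLe M s.toWord)
    (hn : s.norm < 2 ^ J) : (borderSet s x).card ≤ J * (2 * M) := by
  apply gap_card M J _ _ _ hM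
  · intro a ha
    simp only [borderSet, Finset.mem_filter, Finset.mem_Icc] at ha
    omega
  · intro a ha b hb hab
    simp only [borderSet, Finset.mem_filter, Finset.mem_Icc] at ha hb
    obtain ⟨⟨ha1, ha2⟩, ha3⟩ := ha
    obtain ⟨⟨hb1, hb2⟩, hb3⟩ := hb
    have hnorm : s.norm = s.toWord.length := rfl
    have hlen : (s.toWord.drop (s.norm - b)).length = b := by
      rw [List.length_drop]; omega
    have h := hs (s.toWord.drop (s.norm - b)) (List.drop_suffix _ _).isInfix (b - a) (by omega) ?_
    · rwa [hlen] at h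
    · intro i hi
      rw [hlen] at hi
      -- left: via x.take b
      have e1 : (s.toWord.drop (s.norm - b))[i]? = x.toWord[i]? := by
        rw [hb3, List.getElem?_take_of_lt (by omega)]
      have e2 : (s.toWord.drop (s.norm - b))[i + (b - a)]? = x.toWord[i]? := by
        have e3 : (s.toWord.drop (s.norm - a))[i]? = x.toWord[i]? := by
          rw [ha3, List.getElem?_take_of_lt (by omega)]
        rw [← e3, List.getElem?_drop, List.getElem?_drop]
        congr 1
        omega
      rw [e1, e2]

/-- Main counting step for a balanced set. -/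
theorem balanced_expansion (S X : Finset (FreeGroup ℕ)) (M J : ℕ) (hM : 1 ≤ M)
    (hbal : ∀ v : ℕ × Bool, 2 * (S.filter (fun s => s.toWord.getLast? = some v)).card ≤ S.card)
    (hexp : ∀ s ∈ S, ExpLe M s.toWord) (hnorm : ∀ s ∈ S, s.norm < 2 ^ J) :
    S.card * X.card ≤ 4 * (2 * (J * (2 * M)) + 1) * (S * X).card := by
  classical
  set K := J * (2 * M) with hK
  set P : Finset (FreeGroup ℕ × FreeGroup ℕ) :=
    (S ×ˢ X).filter (fun p => (p.1 * p.2).toWord = p.1.toWord ++ p.2.toWord) with hP
  -- size of P
  have hPcard : S.card * X.card ≤ 2 * P.card := by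
    have h1 : P.card = ∑ x ∈ X, (P.filter (fun p => p.2 = x)).card := by
      apply Finset.card_eq_sum_card_fiberwise
      intro p hp
      have := (Finset.mem_filter.mp hp).1
      exact (Finset.mem_product.mp this).2
    rw [h1, Finset.mul_sum, mul_comm, ← smul_eq_mul, ← Finset.sum_const]
    apply Finset.sum_le_sum
    intro x hx
    -- the good set
    have h2 : (S.filter (fun s => (s * x).toWord = s.toWord ++ x.toWord)).card ≤
        (P.filter (fun p => p.2 = x)).card := by
      apply Finset.card_le_card_of_injOn (fun s => (s, x))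
      · intro s hs
        have hs' := Finset.mem_filter.mp hs
        simp only [hP, Finset.coe_filter, Finset.mem_product, Set.mem_ofPred_eq,
          Finset.mem_filter]
        exact ⟨⟨⟨hs'.1, hx⟩, hs'.2⟩, trivial⟩
      · intro a _ b _ hab
        exact (Prod.mk.inj hab).1
    have h3 : S.card ≤ 2 * (S.filter (fun s => (s * x).toWord = s.toWord ++ x.toWord)).card := by
      rcases hxw : x.toWord with _ | ⟨b, l⟩
      · have hx1 : x = 1 := toWord_eq_nil_iff.mp hxw
        rw [Finset.filter_true_of_mem]
        · omega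
        · intro s _
          subst hx1
          simp
      · have hb := hbal (b.1, !b.2)
        have hsplit := Finset.card_filter_add_card_filter_not (s := S)
          (fun s => s.toWord.getLast? = some (b.1, !b.2))
        have hsub : (S.filter (fun s => ¬ s.toWord.getLast? = some (b.1, !b.2))).card ≤
            (S.filter (fun s => (s * x).toWord = s.toWord ++ (b :: l))).card := by
          apply Finset.card_le_card
          intro s hs
          rw [Finset.mem_filter] at hs ⊢
          refine ⟨hs.1, ?_⟩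
          rw [toWord_mul_of_last hxw hs.2, hxw]
        omega
    omega
  -- energy
  set E : Finset ((FreeGroup ℕ × FreeGroup ℕ) × (FreeGroup ℕ × FreeGroup ℕ)) :=
    (P ×ˢ P).filter (fun q => q.1.1 * q.1.2 = q.2.1 * q.2.2) with hE
  have hmapsP : ∀ p ∈ P, p.1 * p.2 ∈ S * X := by
    intro p hp
    have := Finset.mem_product.mp (Finset.mem_filter.mp hp).1
    exact Finset.mul_mem_mul this.1 this.2
  have hCS : P.card ^ 2 ≤ (S * X).card * E.card := by
    have h1 : P.card = ∑ y ∈ S * X, (P.filter (fun p => p.1 * p.2 = y)).card :=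
      Finset.card_eq_sum_card_fiberwise hmapsP
    have h2 : E.card = ∑ y ∈ S * X, (P.filter (fun p => p.1 * p.2 = y)).card ^ 2 := by
      have : E.card = ∑ y ∈ S * X, (E.filter (fun q => q.1.1 * q.1.2 = y)).card := by
        apply Finset.card_eq_sum_card_fiberwise
        intro q hq
        have := Finset.mem_product.mp (Finset.mem_filter.mp hq).1
        exact hmapsP _ this.1
      rw [this]
      apply Finset.sum_congr rfl
      intro y _
      rw [sq, ← Finset.card_product]
      congr 1
      ext q
      simp only [hE, Finset.mem_filter, Finset.mem_product]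
      constructor
      · rintro ⟨⟨⟨h3, h4⟩, h5⟩, h6⟩
        exact ⟨⟨h3, h6⟩, h4, by rw [← h5, h6]⟩
      · rintro ⟨⟨h3, h6⟩, h4, h5⟩
        exact ⟨⟨⟨h3, h4⟩, by rw [h6, h5]⟩, h6⟩
    rw [h1, h2]
    exact sq_sum_le_card_mul_sum_sq
  -- decomposition of E
  have hkey : ∀ (p q : FreeGroup ℕ × FreeGroup ℕ), p ∈ P → q ∈ P → p.1 * p.2 = q.1 * q.2 →
      p.1.toWord ++ p.2.toWord = q.1.toWord ++ q.2.toWord := by
    intro p q hp hq h
    rw [← (Finset.mem_filter.mp hp).2, ← (Finset.mem_filter.mp hq).2, h]
  have hE0 : (E.filter (fun q => q.1.1.norm = q.2.1.norm)).card ≤ P.card := by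
    apply Finset.card_le_card_of_injOn (fun q => q.1)
    · intro q hq
      have hq' := (Finset.mem_filter.mp hq).1
      exact (Finset.mem_product.mp (Finset.mem_filter.mp hq').1).1
    · intro q hq q' hq' heq
      have heq' : q.1 = q'.1 := heq
      have aux : ∀ q ∈ (E.filter (fun q => q.1.1.norm = q.2.1.norm)), q.2 = q.1 := by
        intro q hq
        obtain ⟨h1, h2⟩ := Finset.mem_filter.mp hq
        obtain ⟨h3, h4⟩ := Finset.mem_filter.mp h1
        obtain ⟨h5, h6⟩ := Finset.mem_product.mp h3
        have h7 := hkey _ _ h5 h6 h4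
        have h8 := List.append_inj h7 h2
        ext1
        · exact (toWord_injective h8.1).symm
        · exact (toWord_injective h8.2).symm
      ext1
      · exact heq'
      · rw [aux q hq, aux q' hq', heq']
  have hE1 : (E.filter (fun q => q.2.1.norm < q.1.1.norm)).card ≤ K * (S.card * X.card) := by
    have hmaps : ∀ q ∈ (E.filter (fun q => q.2.1.norm < q.1.1.norm)),
        (fun q : (FreeGroup ℕ × FreeGroup ℕ) × (FreeGroup ℕ × FreeGroup ℕ) =>
          (q.1.1, q.2.2)) q ∈ S ×ˢ X := by
      intro q hq
      obtain ⟨h1, h2⟩ := Finset.mem_filter.mp hq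
      obtain ⟨h3, h4⟩ := Finset.mem_filter.mp h1
      obtain ⟨h5, h6⟩ := Finset.mem_product.mp h3
      have h7 := Finset.mem_product.mp (Finset.mem_filter.mp h5).1
      have h8 := Finset.mem_product.mp (Finset.mem_filter.mp h6).1
      exact Finset.mem_product.mpr ⟨h7.1, h8.2⟩
    have := Finset.card_le_mul_card_image_of_maps_to hmaps K ?_
    · rwa [Finset.card_product] at this
    rintro ⟨s, x'⟩ hsx
    obtain ⟨hs, hx'⟩ := Finset.mem_product.mp hsx
    refine le_trans ?_ (borderSet_card (x := x') hM (hexp s hs) (hnorm s hs))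
    apply Finset.card_le_card_of_injOn (fun q => q.1.1.norm - q.2.1.norm)
    · intro q hq
      obtain ⟨h1, h2⟩ := Finset.mem_filter.mp hq
      obtain ⟨h3, h4⟩ := Finset.mem_filter.mp h1
      obtain ⟨h5, h6⟩ := Finset.mem_filter.mp h3
      obtain ⟨h7, h8⟩ := Finset.mem_product.mp h5
      have h9 := hkey _ _ h7 h8 h6
      rw [Prod.mk.injEq] at h2
      obtain ⟨e1, e2⟩ := h2
      subst e1; subst e2
      simp only [borderSet, Finset.coe_filter, Finset.mem_Icc, Set.mem_ofPred_eq]
      have hn1 : q.1.1.norm = q.1.1.toWord.length := rfl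
      have hn2 : q.2.1.norm = q.2.1.toWord.length := rfl
      refine ⟨by omega, ?_⟩
      rw [show q.1.1.norm - (q.1.1.norm - q.2.1.norm) = q.2.1.toWord.length by omega]
      rw [show q.1.1.norm - q.2.1.norm = q.1.1.toWord.length - q.2.1.toWord.length by omega]
      have h10 := congrArg (List.drop q.2.1.toWord.length) h9
      rw [List.drop_left] at h10
      rw [← h10, List.drop_append_of_le_length (by omega), List.take_append_of_le_length
        (by rw [List.length_drop]), List.take_of_length_le (by rw [List.length_drop])]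
    · intro q hq q' hq' heq
      have heq' : q.1.1.norm - q.2.1.norm = q'.1.1.norm - q'.2.1.norm := heq
      obtain ⟨h1, h2⟩ := Finset.mem_filter.mp hq
      obtain ⟨h3, h4⟩ := Finset.mem_filter.mp h1
      obtain ⟨h5, h6⟩ := Finset.mem_filter.mp h3
      obtain ⟨h7, h8⟩ := Finset.mem_product.mp h5
      have h9 := hkey _ _ h7 h8 h6
      obtain ⟨h1', h2'⟩ := Finset.mem_filter.mp hq'
      obtain ⟨h3', h4'⟩ := Finset.mem_filter.mp h1'
      obtain ⟨h5', h6'⟩ := Finset.mem_filter.mp h3'
      obtain ⟨h7', h8'⟩ := Finset.mem_product.mp h5'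
      have h9' := hkey _ _ h7' h8' h6'
      rw [Prod.mk.injEq] at h2 h2'
      obtain ⟨e1, e2⟩ := h2
      obtain ⟨e1', e2'⟩ := h2'
      have hn1 : q.1.1.norm = q.1.1.toWord.length := rfl
      have hn2 : q.2.1.norm = q.2.1.toWord.length := rfl
      have hn1' : q'.1.1.norm = q'.1.1.toWord.length := rfl
      have hn2' : q'.2.1.norm = q'.2.1.toWord.length := rfl
      rw [e1, e2] at h9
      rw [e1', e2'] at h9'
      rw [e1] at heq' hn1 h4
      rw [e1'] at heq' hn1' h4'
      have hlen : q.2.1.toWord.length = q'.2.1.toWord.length := by omega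
      -- q.2.1 is the prefix of s
      have g1 : q.2.1.toWord = s.toWord.take q.2.1.toWord.length := by
        have := congrArg (List.take q.2.1.toWord.length) h9
        rw [List.take_left, List.take_append_of_le_length (by omega)] at this
        exact this.symm
      have g1' : q'.2.1.toWord = s.toWord.take q'.2.1.toWord.length := by
        have := congrArg (List.take q'.2.1.toWord.length) h9'
        rw [List.take_left, List.take_append_of_le_length (by omega)] at this
        exact this.symm
      have g2 : q.2.1 = q'.2.1 := by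
        apply toWord_injective
        rw [g1, g1', hlen]
      have g3 : q.1.2 = q'.1.2 := by
        have h10 : s.toWord ++ q.1.2.toWord = s.toWord ++ q'.1.2.toWord := by
          rw [h9, h9', g2]
        exact toWord_injective (List.append_cancel_left h10)
      ext1
      · ext1
        · rw [e1, e1']
        · exact g3
      · ext1
        · exact g2
        · rw [e2, e2']
  have hE2 : (E.filter (fun q => q.1.1.norm < q.2.1.norm)).card ≤
      (E.filter (fun q => q.2.1.norm < q.1.1.norm)).card := by
    apply Finset.card_le_card_of_injOn (fun q => (q.2, q.1))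
    · intro q hq
      obtain ⟨h1, h2⟩ := Finset.mem_filter.mp hq
      obtain ⟨h3, h4⟩ := Finset.mem_filter.mp h1
      obtain ⟨h5, h6⟩ := Finset.mem_product.mp h3
      rw [Finset.mem_coe, Finset.mem_filter, hE, Finset.mem_filter, Finset.mem_product]
      exact ⟨⟨⟨h6, h5⟩, h4.symm⟩, h2⟩
    · intro a _ b _ hab
      have := Prod.mk.inj hab
      ext1
      · exact this.2
      · exact this.1
  have hEcard : E.card ≤ P.card + 2 * (K * (S.card * X.card)) := by
    have h1 := Finset.card_filter_add_card_filter_not (s := E)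
      (fun q => q.1.1.norm = q.2.1.norm)
    have h2 : (E.filter (fun q => ¬ q.1.1.norm = q.2.1.norm)).card ≤
        (E.filter (fun q => q.1.1.norm < q.2.1.norm)).card +
        (E.filter (fun q => q.2.1.norm < q.1.1.norm)).card := by
      refine le_trans (Finset.card_le_card ?_) (Finset.card_union_le _ _)
      intro q hq
      obtain ⟨h3, h4⟩ := Finset.mem_filter.mp hq
      rw [Finset.mem_union]
      rcases lt_or_gt_of_ne h4 with h | h
      · exact Or.inl (Finset.mem_filter.mpr ⟨h3, h⟩)
      · exact Or.inr (Finset.mem_filter.mpr ⟨h3, h⟩)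
    omega
  have hPle : P.card ≤ S.card * X.card := by
    rw [← Finset.card_product]
    exact Finset.card_filter_le _ _
  -- conclusion
  set N := S.card * X.card with hN
  set Y := (S * X).card with hY
  have hfin : N ^ 2 ≤ 4 * (2 * K + 1) * Y * N := by
    calc N ^ 2 ≤ (2 * P.card) ^ 2 := Nat.pow_le_pow_left hPcard 2
      _ = 4 * P.card ^ 2 := by ring
      _ ≤ 4 * (Y * E.card) := Nat.mul_le_mul_left 4 hCS
      _ ≤ 4 * (Y * (N + 2 * (K * N))) := by
          apply Nat.mul_le_mul_left
          apply Nat.mul_le_mul_left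
          omega
      _ = 4 * (2 * K + 1) * Y * N := by ring
  rcases Nat.eq_zero_or_pos N with h0 | hpos
  · rw [h0]; exact Nat.zero_le _
  · rw [sq] at hfin
    exact Nat.le_of_mul_le_mul_right hfin hpos

/-- Existence of a balancing translation. -/
theorem exists_balance (S : Finset (FreeGroup ℕ)) : ∃ w : FreeGroup ℕ, ∀ v : ℕ × Bool,
    2 * (S.filter (fun s => (s * w).toWord.getLast? = some v)).card ≤ S.card := by
  classical
  obtain ⟨w, hw⟩ : ∃ w : FreeGroup ℕ, ∀ w' : FreeGroup ℕ,
      ∑ s ∈ S, (s * w).norm ≤ ∑ s ∈ S, (s * w').norm :=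
    ⟨Function.argmin (fun w : FreeGroup ℕ => ∑ s ∈ S, (s * w).norm),
      fun w' => Function.argmin_le (fun w : FreeGroup ℕ => ∑ s ∈ S, (s * w).norm) w'⟩
  refine ⟨w, fun v => ?_⟩
  set z : FreeGroup ℕ := mk [v] with hz
  have h1 := hw (w * z⁻¹)
  have hznorm : z⁻¹.norm ≤ 1 := by
    rw [norm_inv_eq]
    exact norm_mk_le
  -- split sums
  set A := S.filter (fun s => (s * w).toWord.getLast? = some v) with hA
  set B := S.filter (fun s => ¬ (s * w).toWord.getLast? = some v) with hB
  have hsum : ∀ f : FreeGroup ℕ → ℕ, ∑ s ∈ S, f s = ∑ s ∈ A, f s + ∑ s ∈ B, f s := by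
    intro f
    rw [hA, hB, Finset.sum_filter_add_sum_filter_not]
  have hcard : S.card = A.card + B.card := by
    rw [hA, hB, Finset.card_filter_add_card_filter_not]
  have hAle : ∑ s ∈ A, (s * (w * z⁻¹)).norm + A.card ≤ ∑ s ∈ A, (s * w).norm := by
    rw [Finset.card_eq_sum_ones, ← Finset.sum_add_distrib]
    apply Finset.sum_le_sum
    intro s hs
    have hlast := (Finset.mem_filter.mp hs).2
    obtain ⟨l, hl⟩ : ∃ l, (s * w).toWord = l ++ [v] := by
      rw [List.getLast?_eq_some_iff] at hlast
      exact hlast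
    have h2 : s * w = mk l * z := by
      rw [hz, mul_mk, ← hl, mk_toWord]
    have h3 : s * (w * z⁻¹) = mk l := by
      rw [← mul_assoc, h2]; group
    rw [h3]
    have h4 : (s * w).norm = l.length + 1 := by
      rw [FreeGroup.norm, hl, List.length_append]; rfl
    rw [h4]
    have := norm_mk_le (L₁ := l)
    omega
  have hBle : ∑ s ∈ B, (s * (w * z⁻¹)).norm ≤ ∑ s ∈ B, (s * w).norm + B.card := by
    rw [Finset.card_eq_sum_ones, ← Finset.sum_add_distrib]
    apply Finset.sum_le_sum
    intro s _
    rw [← mul_assoc]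
    exact (FreeGroup.norm_mul_le _ _).trans (by omega)
  rw [hsum (fun s => (s * w).norm), hsum (fun s => (s * (w * z⁻¹)).norm)] at h1
  omega

/-- The exponent function on the free group. -/
noncomputable def expo (g : FreeGroup ℕ) : ℕ := sInf {m | ExpLe m g.toWord}

theorem expo_spec (g : FreeGroup ℕ) : ExpLe (expo g) g.toWord :=
  Nat.sInf_mem (s := {m | ExpLe m g.toWord}) ⟨_, expLe_length g.toWord⟩

theorem expo_le {g : FreeGroup ℕ} {m : ℕ} (h : ExpLe m g.toWord) : expo g ≤ m :=
  Nat.sInf_le h

/-- The length function. -/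
noncomputable def len (g : FreeGroup ℕ) : ℕ := expo g + Nat.size g.norm

theorem expLe_of_len_le {g : FreeGroup ℕ} {m : ℕ} (h : len g ≤ m) : ExpLe m g.toWord :=
  (expo_spec g).mono (by unfold len at h; omega)

theorem norm_lt_of_len_le {g : FreeGroup ℕ} {m : ℕ} (h : len g ≤ m) : g.norm < 2 ^ m :=
  Nat.size_le.mp (by unfold len at h; omega)

theorem len_one : len 1 = 0 := by
  have h1 : expo 1 ≤ 0 := expo_le (by rw [toWord_one]; exact expLe_nil 0)
  have h2 : Nat.size (1 : FreeGroup ℕ).norm = 0 := by rw [FreeGroup.norm_one]; exact Nat.size_zero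
  unfold len
  omega

theorem len_inv (g : FreeGroup ℕ) : len g⁻¹ = len g := by
  have h : ∀ g : FreeGroup ℕ, expo g⁻¹ ≤ expo g := by
    intro g
    apply expo_le
    rw [toWord_inv]
    exact (expo_spec g).invRev
  have h1 := h g
  have h2 := h g⁻¹
  rw [inv_inv] at h2
  unfold len
  rw [norm_inv_eq]
  omega

theorem size_add_le (a b : ℕ) : Nat.size (a + b) ≤ Nat.size a + Nat.size b := by
  rcases Nat.eq_zero_or_pos a with rfl | ha
  · simp
  rcases Nat.eq_zero_or_pos b with rfl | hb
  · simp
  rw [Nat.size_le]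
  have h1 : a < 2 ^ Nat.size a := Nat.lt_size_self a
  have h2 : b < 2 ^ Nat.size b := Nat.lt_size_self b
  have h3 : 1 ≤ Nat.size a := Nat.size_pos.mpr ha
  have h4 : 1 ≤ Nat.size b := Nat.size_pos.mpr hb
  have h5 : 2 ≤ 2 ^ Nat.size a := by
    calc 2 = 2 ^ 1 := rfl
      _ ≤ _ := Nat.pow_le_pow_right (by norm_num) h3
  have h6 : 2 ≤ 2 ^ Nat.size b := by
    calc 2 = 2 ^ 1 := rfl
      _ ≤ _ := Nat.pow_le_pow_right (by norm_num) h4
  rw [pow_add]
  nlinarith

theorem len_mul (g h : FreeGroup ℕ) : len (g * h) ≤ len g + len h := by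
  obtain ⟨u, c, v, e1, e2, e3⟩ := exists_decomp g h
  have h1 : ExpLe (expo g) u := (expo_spec g).factor ⟨[], c, by simp [e1]⟩
  have h2 : ExpLe (expo h) v := (expo_spec h).factor ⟨invRev c, [], by simp [e2]⟩
  have h3 : expo (g * h) ≤ expo g + expo h := expo_le (by rw [e3]; exact h1.append h2)
  have h4 : Nat.size (g * h).norm ≤ Nat.size g.norm + Nat.size h.norm :=
    (Nat.size_le_size (FreeGroup.norm_mul_le g h)).trans (size_add_le _ _)
  unfold len
  omega

/-- Rapid expansion. -/
theorem rapid_expansion (m : ℕ) (S X : Finset (FreeGroup ℕ)) (hS : ∀ s ∈ S, len s ≤ m) :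
    S.card * X.card ≤ 36 * (m + 1) ^ 2 * (S * X).card := by
  classical
  rcases S.eq_empty_or_nonempty with rfl | hne
  · simp
  obtain ⟨w, hw⟩ := exists_balance S
  have hScard : 0 < S.card := hne.card_pos
  -- w is a bounded element
  have hwlen : ExpLe m w.toWord ∧ ∃ s ∈ S, w.norm ≤ s.norm := by
    rcases List.eq_nil_or_concat w.toWord with h0 | ⟨w0, v, hv⟩
    · refine ⟨by rw [h0]; exact expLe_nil m, ?_⟩
      obtain ⟨s, hs⟩ := hne
      refine ⟨s, hs, ?_⟩
      rw [FreeGroup.norm, h0]; simp
    · have h1 := hw v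
      have h2 : ∃ s ∈ S, ¬ (s * w).toWord.getLast? = some v := by
        by_contra hcon
        push Not at hcon
        rw [Finset.filter_true_of_mem hcon] at h1
        omega
      obtain ⟨s, hs, hsv⟩ := h2
      obtain ⟨u, c, v', e1, e2, e3⟩ := exists_decomp s w
      have hv' : v' = [] := by
        by_contra hne'
        apply hsv
        rw [e3, List.getLast?_append_of_ne_nil _ hne']
        have : w.toWord.getLast? = v'.getLast? := by
          rw [e2, List.getLast?_append_of_ne_nil _ hne']
        rw [← this, hv]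
        simp
      subst hv'
      rw [List.append_nil] at e2
      refine ⟨?_, s, hs, ?_⟩
      · rw [e2]
        exact ((expLe_of_len_le (hS s hs)).factor ⟨u, [], by simp [e1]⟩).invRev
      · rw [FreeGroup.norm, FreeGroup.norm, e1, e2, invRev_length, List.length_append]
        omega
  obtain ⟨hwexp, s0, hs0, hws0⟩ := hwlen
  set S' := S.image (fun s => s * w) with hS'
  set X' := X.image (fun x => w⁻¹ * x) with hX'
  have hcS : S'.card = S.card :=
    Finset.card_image_of_injective _ (mul_left_injective w)
  have hcX : X'.card = X.card :=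
    Finset.card_image_of_injective _ (mul_right_injective w⁻¹)
  have hprod : S' * X' = S * X := by
    ext y
    simp only [Finset.mem_mul, hS', hX', Finset.mem_image]
    constructor
    · rintro ⟨_, ⟨s, hs, rfl⟩, _, ⟨x, hx, rfl⟩, rfl⟩
      exact ⟨s, hs, x, hx, by group⟩
    · rintro ⟨s, hs, x, hx, rfl⟩
      exact ⟨_, ⟨s, hs, rfl⟩, _, ⟨x, hx, rfl⟩, by group⟩
  have hmain := balanced_expansion S' X' (2 * m + 1) (m + 1) (by omega) ?_ ?_ ?_
  · rw [hcS, hcX, hprod] at hmain
    refine hmain.trans (Nat.mul_le_mul_right _ ?_)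
    nlinarith
  · intro v
    rw [hcS]
    refine le_trans ?_ (hw v)
    apply Nat.mul_le_mul_left
    rw [hS', Finset.filter_image]
    exact Finset.card_image_le
  · intro s' hs'
    obtain ⟨s, hs, rfl⟩ := Finset.mem_image.mp hs'
    obtain ⟨u, c, v, e1, e2, e3⟩ := exists_decomp s w
    have h1 : ExpLe m u := (expLe_of_len_le (hS s hs)).factor ⟨[], c, by simp [e1]⟩
    have h2 : ExpLe m v := hwexp.factor ⟨invRev c, [], by simp [e2]⟩
    rw [e3]
    exact (h1.append h2).mono (by omega)
  · intro s' hs'
    obtain ⟨s, hs, rfl⟩ := Finset.mem_image.mp hs'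
    have h1 := FreeGroup.norm_mul_le s w
    have h2 := norm_lt_of_len_le (hS s hs)
    have h3 := norm_lt_of_len_le (hS s0 hs0)
    rw [pow_succ]
    omega

end Pool.Agent.H290R3
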