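import Mathlib
import Pool.Agent.H290R3.RapidExp

set_option autoImplicit false

namespace Pool.Agent.H290R3

open FreeGroup
open scoped Pointwise

/-- positive word -/
def pos (l : List ℕ) : FreeGroup ℕ := mk (l.map (fun a => (a, true)))

theorem toWord_pos (l : List ℕ) : (pos l).toWord = l.map (fun a => (a, true)) := by
  have h : FreeGroup.IsReduced (l.map (fun a => (a, true))) := by
    rw [FreeGroup.IsReduced, List.isChain_map]
    induction l with
    | nil => exact List.isChain_nil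
    | cons a l ih =>
      cases l with
      | nil => exact List.isChain_singleton _
      | cons b l => exact List.isChain_cons_cons.mpr ⟨fun _ => rfl, ih⟩
  rw [pos, toWord_mk, h.reduce_eq]

theorem pos_append (l1 l2 : List ℕ) : pos (l1 ++ l2) = pos l1 * pos l2 := by
  rw [pos, pos, pos, mul_mk, List.map_append]

theorem pos_injective : Function.Injective pos := by
  intro l1 l2 h
  have h1 := congrArg toWord h
  rw [toWord_pos, toWord_pos] at h1
  exact (List.map_injective_iff.mpr (fun a b hab => (Prod.mk.inj hab).1)) h1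

theorem norm_pos (l : List ℕ) : (pos l).norm = l.length := by
  rw [FreeGroup.norm, toWord_pos, List.length_map]

theorem len_pos {l : List ℕ} (h : l.Nodup) : len (pos l) ≤ 1 + Nat.size l.length := by
  unfold len
  rw [norm_pos]
  apply Nat.add_le_add_right
  apply expo_le
  rw [toWord_pos]
  apply expLe_one_of_nodup
  exact h.map (fun a b hab => (Prod.mk.inj hab).1)

/-- injective words of length `i` over the alphabet `{0, ..., q-1}` -/
noncomputable def W (q i : ℕ) : Finset (List ℕ) :=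
  (Finset.univ : Finset (Fin i ↪ Fin q)).image (fun e => List.ofFn (fun j => (e j : ℕ)))

theorem mem_W {q i : ℕ} {l : List ℕ} :
    l ∈ W q i ↔ l.length = i ∧ l.Nodup ∧ ∀ a ∈ l, a < q := by
  simp only [W, Finset.mem_image, Finset.mem_univ, true_and]
  constructor
  · rintro ⟨e, rfl⟩
    refine ⟨by simp, ?_, ?_⟩
    · rw [List.nodup_ofFn]
      intro a b hab
      exact e.injective (Fin.ext hab)
    · intro a ha
      rw [List.mem_ofFn] at ha
      obtain ⟨j, rfl⟩ := ha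
      exact (e j).isLt
  · rintro ⟨rfl, h2, h3⟩
    refine ⟨⟨fun j => ⟨l[j], h3 _ (List.getElem_mem _)⟩, ?_⟩, ?_⟩
    · intro a b hab
      have := Fin.mk.inj hab
      exact Fin.ext ((List.Nodup.getElem_inj_iff h2).mp this)
    · simp

theorem card_W (q i : ℕ) : (W q i).card = q.descFactorial i := by
  rw [W, Finset.card_image_of_injective, Finset.card_univ, Fintype.card_embedding_eq,
    Fintype.card_fin, Fintype.card_fin]
  intro e e' h
  have h1 := List.ofFn_injective h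
  ext j
  exact congrFun h1 j

theorem W_disjoint {q i j : ℕ} (h : i ≠ j) : Disjoint (W q i) (W q j) := by
  rw [Finset.disjoint_left]
  intro l h1 h2
  rw [mem_W] at h1 h2
  exact h (h1.1.symm.trans h2.1)

/-- union over lengths in a finite set -/
noncomputable def WU (q : ℕ) (I : Finset ℕ) : Finset (List ℕ) := I.biUnion (W q)

theorem mem_WU {q : ℕ} {I : Finset ℕ} {l : List ℕ} :
    l ∈ WU q I ↔ l.length ∈ I ∧ l.Nodup ∧ ∀ a ∈ l, a < q := by
  simp only [WU, Finset.mem_biUnion, mem_W]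
  constructor
  · rintro ⟨i, hi, rfl, h⟩
    exact ⟨hi, h⟩
  · rintro ⟨h1, h2⟩
    exact ⟨_, h1, rfl, h2⟩

theorem sum_WU {q : ℕ} {I : Finset ℕ} (F : ℕ → ℝ) :
    ∑ l ∈ WU q I, F l.length = ∑ i ∈ I, (q.descFactorial i : ℝ) * F i := by
  rw [WU, Finset.sum_biUnion]
  · apply Finset.sum_congr rfl
    intro i _
    rw [Finset.sum_congr rfl (g := fun _ => F i)]
    · rw [Finset.sum_const, card_W, nsmul_eq_mul]
    · intro l hl
      rw [(mem_W.mp hl).1]
  · intro i _ j _ hij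
    exact W_disjoint hij

theorem descFactorial_lower {n k : ℕ} (hk : k ≤ n) (hn : 1 ≤ n) :
    (1 / 2 : ℝ) ≤ ((4 * n ^ 2).descFactorial k : ℝ) * (1 / (2 * n : ℝ)) ^ (2 * k) := by
  set q := 4 * n ^ 2 with hq
  have hn0 : (0 : ℝ) < n := by exact_mod_cast hn
  have hnq : n ≤ q := by rw [hq]; nlinarith
  have h1 : ((q + 1 - k) ^ k : ℕ) ≤ q.descFactorial k := Nat.pow_sub_le_descFactorial q k
  have h2 : ((q + 1 - k : ℕ) : ℝ) ^ k ≤ (q.descFactorial k : ℝ) := by exact_mod_cast h1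
  have hqr : (q : ℝ) = 4 * (n : ℝ) ^ 2 := by rw [hq]; push_cast; ring
  have h3 : ((q + 1 - k : ℕ) : ℝ) = (q : ℝ) + 1 - k := by
    rw [Nat.cast_sub (by omega)]; push_cast; ring
  have hkr : (k : ℝ) ≤ n := by exact_mod_cast hk
  have h4 : (q : ℝ) * (1 - 1 / (4 * n)) ≤ ((q + 1 - k : ℕ) : ℝ) := by
    rw [h3, hqr]
    have : (4 * (n : ℝ) ^ 2) * (1 - 1 / (4 * n)) = 4 * n ^ 2 - n := by
      field_simp
    rw [this]; linarith
  have h5 : (0 : ℝ) ≤ 1 - 1 / (4 * n) := by
    have : 1 / (4 * (n : ℝ)) ≤ 1 := by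
      rw [div_le_one (by positivity)]
      have : (1 : ℝ) ≤ n := by exact_mod_cast hn
      linarith
    linarith
  have h6 : ((q : ℝ) * (1 - 1 / (4 * n))) ^ k ≤ ((q + 1 - k : ℕ) : ℝ) ^ k :=
    pow_le_pow_left₀ (by positivity) h4 k
  have h7 : (1 / 2 : ℝ) ≤ (1 - 1 / (4 * n)) ^ k := by
    have hb := one_add_mul_le_pow (a := -(1 / (4 * (n : ℝ)))) (by
      have : 1 / (4 * (n : ℝ)) ≤ 1 := by
        rw [div_le_one (by positivity)]
        have : (1 : ℝ) ≤ n := by exact_mod_cast hn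
        linarith
      linarith) k
    have h8 : (k : ℝ) * -(1 / (4 * n)) ≥ -(1 / 4) := by
      have : (k : ℝ) * (1 / (4 * n)) ≤ n * (1 / (4 * n)) :=
        mul_le_mul_of_nonneg_right hkr (by positivity)
      have h9 : (n : ℝ) * (1 / (4 * n)) = 1 / 4 := by field_simp
      linarith
    have h10 : (1 : ℝ) - 1 / (4 * n) = 1 + -(1 / (4 * n)) := by ring
    rw [h10]
    linarith
  have h11 : (q : ℝ) ^ k * (1 / (2 * n : ℝ)) ^ (2 * k) = 1 := by
    rw [pow_mul, hqr, ← mul_pow]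
    have : (4 * (n : ℝ) ^ 2) * (1 / (2 * n)) ^ 2 = 1 := by field_simp; norm_num
    rw [this, one_pow]
  calc (1 / 2 : ℝ) ≤ (1 - 1 / (4 * n)) ^ k := h7
    _ = (1 - 1 / (4 * n)) ^ k * ((q : ℝ) ^ k * (1 / (2 * n : ℝ)) ^ (2 * k)) := by rw [h11]; ring
    _ = ((q : ℝ) * (1 - 1 / (4 * n))) ^ k * (1 / (2 * n : ℝ)) ^ (2 * k) := by
        rw [mul_pow]; ring
    _ ≤ (q.descFactorial k : ℝ) * (1 / (2 * n : ℝ)) ^ (2 * k) := by
        apply mul_le_mul_of_nonneg_right (h6.trans h2) (by positivity)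

theorem descFactorial_upper {n k : ℕ} (hn : 1 ≤ n) :
    ((4 * n ^ 2).descFactorial k : ℝ) * (1 / (2 * n : ℝ)) ^ (2 * k) ≤ 1 := by
  have hn0 : (0 : ℝ) < n := by exact_mod_cast hn
  have h1 : ((4 * n ^ 2).descFactorial k : ℝ) ≤ ((4 * n ^ 2 : ℕ) : ℝ) ^ k := by
    exact_mod_cast Nat.descFactorial_le_pow (4 * n ^ 2) k
  have h11 : ((4 * n ^ 2 : ℕ) : ℝ) ^ k * (1 / (2 * n : ℝ)) ^ (2 * k) = 1 := by
    push_cast
    rw [pow_mul, ← mul_pow]
    have : (4 * (n : ℝ) ^ 2) * (1 / (2 * n)) ^ 2 = 1 := by field_simp; norm_num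
    rw [this, one_pow]
  calc _ ≤ ((4 * n ^ 2 : ℕ) : ℝ) ^ k * (1 / (2 * n : ℝ)) ^ (2 * k) :=
        mul_le_mul_of_nonneg_right h1 (by positivity)
    _ = 1 := h11

theorem sum_sq_lower (n : ℕ) (hn : 2 ≤ n) :
    (n : ℝ) ^ 3 / 12 ≤ ∑ k ∈ Finset.Icc 2 n, ((k : ℝ) - 1) ^ 2 := by
  have h : ∀ m : ℕ, ∑ k ∈ Finset.Icc 2 (m + 1), ((k : ℝ) - 1) ^ 2 =
      ((m : ℝ) * ((m : ℝ) + 1) * (2 * (m : ℝ) + 1) / 6 : ℝ) := by
    intro m
    induction m with
    | zero => simp
    | succ m ih =>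
      rw [Finset.sum_Icc_succ_top (by omega), ih]
      push_cast
      ring
  obtain ⟨m, rfl⟩ : ∃ m, n = m + 1 := ⟨n - 1, by omega⟩
  rw [h m]
  have hm : (1 : ℝ) ≤ m := by
    have : 1 ≤ m := by omega
    exact_mod_cast this
  push_cast
  nlinarith [mul_nonneg (sub_nonneg.mpr hm) (sub_nonneg.mpr hm), hm, mul_nonneg (mul_nonneg (sub_nonneg.mpr hm) (sub_nonneg.mpr hm)) (by linarith : (0:ℝ) ≤ m)]

/-- The value of the convolution at a positive injective word. -/
theorem main_ineq (n : ℕ) (hn : 2 ≤ n) (D : ℝ)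
    (H : ∀ (A B : Finset (FreeGroup ℕ)) (f g : FreeGroup ℕ → ℂ),
      (∀ y ∈ A, (len y : ℝ) ≤ ((1 + Nat.size n : ℕ) : ℝ)) →
      ∑ x ∈ A * B, ‖∑ p ∈ (A ×ˢ B).filter (fun p => p.1 * p.2 = x), f p.1 * g p.2‖ ^ 2
            ≤ D ^ 2 * (∑ y ∈ A, ‖f y‖ ^ 2) * (∑ z ∈ B, ‖g z‖ ^ 2)) :
    (n : ℝ) ≤ 24 * D ^ 2 := by
  classical
  have hn1 : 1 ≤ n := by omega
  have hn0 : (0 : ℝ) < n := by exact_mod_cast (by omega : 0 < n)
  set q := 4 * n ^ 2 with hq
  set c : ℝ := 1 / (2 * n) with hc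
  have hc0 : 0 < c := by rw [hc]; positivity
  set A : Finset (FreeGroup ℕ) := (WU q (Finset.Icc 1 n)).image pos with hA
  set f : FreeGroup ℕ → ℂ := fun y => ((c ^ y.norm : ℝ) : ℂ) with hf
  have hfn : ∀ y, ‖f y‖ ^ 2 = c ^ (2 * y.norm) := by
    intro y
    rw [hf]
    simp only [Complex.norm_real, Real.norm_eq_abs]
    rw [abs_of_pos (by positivity), ← pow_mul, mul_comm]
  have hlen : ∀ y ∈ A, (len y : ℝ) ≤ ((1 + Nat.size n : ℕ) : ℝ) := by
    intro y hy
    rw [hA, Finset.mem_image] at hy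
    obtain ⟨l, hl, rfl⟩ := hy
    rw [mem_WU, Finset.mem_Icc] at hl
    have h1 := len_pos hl.2.1
    have h2 : Nat.size l.length ≤ Nat.size n := Nat.size_le_size hl.1.2
    exact_mod_cast h1.trans (by omega)
  have hmain := H A A f f hlen
  have hsumA : ∑ y ∈ A, ‖f y‖ ^ 2 ≤ n := by
    rw [hA, Finset.sum_image (fun a _ b _ h => pos_injective h)]
    have h1 : ∀ l ∈ WU q (Finset.Icc 1 n), ‖f (pos l)‖ ^ 2 = c ^ (2 * l.length) := by
      intro l _
      rw [hfn, norm_pos]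
    rw [Finset.sum_congr rfl h1, sum_WU (fun k => c ^ (2 * k))]
    calc ∑ i ∈ Finset.Icc 1 n, (q.descFactorial i : ℝ) * c ^ (2 * i)
        ≤ ∑ i ∈ Finset.Icc 1 n, (1 : ℝ) :=
          Finset.sum_le_sum (fun i _ => descFactorial_upper hn1)
      _ = n := by simp
  have hsumA0 : 0 ≤ ∑ y ∈ A, ‖f y‖ ^ 2 := Finset.sum_nonneg (fun _ _ => by positivity)
  -- lower bound of the left side
  have hlow : (n : ℝ) ^ 3 / 24 ≤
      ∑ x ∈ A * A, ‖∑ p ∈ (A ×ˢ A).filter (fun p => p.1 * p.2 = x), f p.1 * f p.2‖ ^ 2 := by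
    have hsub : (WU q (Finset.Icc 2 n)).image pos ⊆ A * A := by
      intro x hx
      rw [Finset.mem_image] at hx
      obtain ⟨l, hl, rfl⟩ := hx
      rw [mem_WU, Finset.mem_Icc] at hl
      obtain ⟨⟨h1, h2⟩, h3, h4⟩ := hl
      rw [← List.take_append_drop 1 l, pos_append]
      apply Finset.mul_mem_mul
      · rw [hA, Finset.mem_image]
        refine ⟨l.take 1, ?_, rfl⟩
        rw [mem_WU, Finset.mem_Icc, List.length_take]
        exact ⟨by omega, h3.sublist (List.take_sublist _ _),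
          fun a ha => h4 a (List.mem_of_mem_take ha)⟩
      · rw [hA, Finset.mem_image]
        refine ⟨l.drop 1, ?_, rfl⟩
        rw [mem_WU, Finset.mem_Icc, List.length_drop]
        exact ⟨by omega, h3.sublist (List.drop_sublist _ _),
          fun a ha => h4 a (List.mem_of_mem_drop ha)⟩
    refine le_trans ?_ (Finset.sum_le_sum_of_subset_of_nonneg hsub
      (fun _ _ _ => by positivity))
    rw [Finset.sum_image (fun a _ b _ h => pos_injective h)]
    -- pointwise lower bound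
    have hpt : ∀ l ∈ WU q (Finset.Icc 2 n),
        (((l.length : ℝ) - 1) * c ^ l.length) ^ 2 ≤
        ‖∑ p ∈ (A ×ˢ A).filter (fun p => p.1 * p.2 = pos l), f p.1 * f p.2‖ ^ 2 := by
      intro l hl
      rw [mem_WU, Finset.mem_Icc] at hl
      obtain ⟨⟨h1, h2⟩, h3, h4⟩ := hl
      have hlen1 : (1 : ℝ) ≤ l.length := by exact_mod_cast (by omega : 1 ≤ l.length)
      apply pow_le_pow_left₀ (by
        apply mul_nonneg
        · linarith
        · positivity)
      have h5 : ∑ p ∈ (A ×ˢ A).filter (fun p => p.1 * p.2 = pos l), f p.1 * f p.2 =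
          ((∑ p ∈ (A ×ˢ A).filter (fun p => p.1 * p.2 = pos l),
            c ^ (p.1.norm + p.2.norm) : ℝ) : ℂ) := by
        rw [Complex.ofReal_sum]
        apply Finset.sum_congr rfl
        intro p _
        rw [hf]
        simp only
        rw [← Complex.ofReal_mul, pow_add]
      rw [h5, Complex.norm_real, Real.norm_eq_abs, abs_of_nonneg
        (Finset.sum_nonneg (fun _ _ => by positivity))]
      have hinj : Set.InjOn (fun i => (pos (l.take i), pos (l.drop i)))
          (Finset.Icc 1 (l.length - 1) : Set ℕ) := by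
        intro i hi j hj hij
        rw [Finset.mem_coe, Finset.mem_Icc] at hi hj
        have h6 := pos_injective (Prod.mk.inj hij).1
        have h7 := congrArg List.length h6
        rw [List.length_take, List.length_take] at h7
        omega
      have hsub2 : (Finset.Icc 1 (l.length - 1)).image
          (fun i => (pos (l.take i), pos (l.drop i))) ⊆
          (A ×ˢ A).filter (fun p => p.1 * p.2 = pos l) := by
        intro p hp
        rw [Finset.mem_image] at hp
        obtain ⟨i, hi, rfl⟩ := hp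
        rw [Finset.mem_Icc] at hi
        rw [Finset.mem_filter, Finset.mem_product]
        refine ⟨⟨?_, ?_⟩, ?_⟩
        · simp only
          rw [hA, Finset.mem_image]
          refine ⟨l.take i, ?_, rfl⟩
          rw [mem_WU, Finset.mem_Icc, List.length_take]
          exact ⟨by omega, h3.sublist (List.take_sublist _ _),
            fun a ha => h4 a (List.mem_of_mem_take ha)⟩
        · simp only
          rw [hA, Finset.mem_image]
          refine ⟨l.drop i, ?_, rfl⟩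
          rw [mem_WU, Finset.mem_Icc, List.length_drop]
          exact ⟨by omega, h3.sublist (List.drop_sublist _ _),
            fun a ha => h4 a (List.mem_of_mem_drop ha)⟩
        · simp only
          rw [← pos_append, List.take_append_drop]
      refine le_trans (le_of_eq ?_) (Finset.sum_le_sum_of_subset_of_nonneg hsub2
        (fun _ _ _ => by positivity))
      rw [Finset.sum_image hinj]
      have h8 : ∀ i ∈ Finset.Icc 1 (l.length - 1),
          c ^ ((pos (l.take i), pos (l.drop i)).1.norm +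
            (pos (l.take i), pos (l.drop i)).2.norm) = c ^ l.length := by
        intro i hi
        rw [Finset.mem_Icc] at hi
        simp only
        rw [norm_pos, norm_pos, List.length_take, List.length_drop]
        congr 1
        omega
      rw [Finset.sum_congr rfl h8, Finset.sum_const, Nat.card_Icc, nsmul_eq_mul]
      congr 1
      rw [show l.length - 1 + 1 - 1 = l.length - 1 by omega, Nat.cast_sub (by omega)]
      simp
    refine le_trans ?_ (Finset.sum_le_sum hpt)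
    rw [sum_WU (fun k => (((k : ℝ) - 1) * c ^ k) ^ 2)]
    have h9 : ∀ k ∈ Finset.Icc 2 n, ((k : ℝ) - 1) ^ 2 / 2 ≤
        (q.descFactorial k : ℝ) * (((k : ℝ) - 1) * c ^ k) ^ 2 := by
      intro k hk
      rw [Finset.mem_Icc] at hk
      have h10 := descFactorial_lower hk.2 hn1
      have h11 : (q.descFactorial k : ℝ) * (((k : ℝ) - 1) * c ^ k) ^ 2 =
          ((k : ℝ) - 1) ^ 2 * ((q.descFactorial k : ℝ) * c ^ (2 * k)) := by
        rw [mul_pow, ← pow_mul, mul_comm k 2]; ring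
      rw [h11]
      nlinarith [sq_nonneg ((k : ℝ) - 1)]
    refine le_trans ?_ (Finset.sum_le_sum h9)
    rw [← Finset.sum_div]
    have := sum_sq_lower n hn
    linarith
  -- combine
  have hfin : (n : ℝ) ^ 3 / 24 ≤ D ^ 2 * n * n := by
    refine hlow.trans (hmain.trans ?_)
    have hD : 0 ≤ D ^ 2 := sq_nonneg D
    have h1 : D ^ 2 * (∑ y ∈ A, ‖f y‖ ^ 2) ≤ D ^ 2 * n := mul_le_mul_of_nonneg_left hsumA hD
    exact mul_le_mul h1 hsumA hsumA0 (by positivity)
  have h12 : (n : ℝ) * n ^ 2 ≤ 24 * D ^ 2 * n ^ 2 := by nlinarith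
  exact le_of_mul_le_mul_right h12 (by positivity)

/-- Property RD fails. -/
theorem not_RD : ¬ ∃ C : ℝ, 0 < C ∧ ∃ d : ℕ, ∀ r : ℝ, 0 ≤ r →
    ∀ (A B : Finset (FreeGroup ℕ)) (f g : FreeGroup ℕ → ℂ), (∀ y ∈ A, (len y : ℝ) ≤ r) →
      ∑ x ∈ A * B, ‖∑ p ∈ (A ×ˢ B).filter (fun p => p.1 * p.2 = x), f p.1 * g p.2‖ ^ 2
        ≤ (C * (1 + r) ^ d) ^ 2 * (∑ y ∈ A, ‖f y‖ ^ 2) * (∑ z ∈ B, ‖g z‖ ^ 2) := by
  rintro ⟨C, hC, d, H⟩
  have key : ∀ k : ℕ, 1 ≤ k → (2 : ℝ) ^ k ≤ 24 * (C * ((k : ℝ) + 3) ^ d) ^ 2 := by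
    intro k hk
    have h1 : 2 ≤ 2 ^ k := by
      calc 2 = 2 ^ 1 := rfl
        _ ≤ 2 ^ k := Nat.pow_le_pow_right (by norm_num) hk
    have h2 := main_ineq (2 ^ k) h1 (C * (1 + ((1 + Nat.size (2 ^ k) : ℕ) : ℝ)) ^ d)
      (fun A B f g h => H _ (by positivity) A B f g h)
    have h3 : Nat.size (2 ^ k) = k + 1 := Nat.size_pow
    rw [h3] at h2
    have h4 : (1 + ((1 + (k + 1) : ℕ) : ℝ)) = (k : ℝ) + 3 := by push_cast; ring
    rw [h4] at h2
    exact_mod_cast h2
  have ht : Filter.Tendsto (fun m : ℕ => (m : ℝ) ^ (2 * d) / 2 ^ m) Filter.atTop (nhds 0) :=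
    tendsto_pow_const_div_const_pow_of_one_lt (2 * d) (by norm_num : (1 : ℝ) < 2)
  have hpos : (0 : ℝ) < 1 / (192 * C ^ 2 + 1) := by positivity
  have hev := (ht.eventually (gt_mem_nhds hpos)).and (Filter.eventually_ge_atTop 4)
  obtain ⟨m, hm1, hm2⟩ := hev.exists
  obtain ⟨k, rfl⟩ : ∃ k, m = k + 3 := ⟨m - 3, by omega⟩
  have h5 := key k (by omega)
  rw [div_lt_div_iff₀ (by positivity) (by positivity), one_mul] at hm1
  push_cast at hm1
  have h6 : (24 : ℝ) * (C * ((k : ℝ) + 3) ^ d) ^ 2 = 24 * C ^ 2 * ((k : ℝ) + 3) ^ (2 * d) := by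
    rw [mul_pow, ← pow_mul, mul_comm d 2]; ring
  rw [h6] at h5
  have h7 : (2 : ℝ) ^ (k + 3) = 8 * 2 ^ k := by rw [pow_add]; norm_num; ring
  rw [h7] at hm1
  have h8 : (0 : ℝ) ≤ ((k : ℝ) + 3) ^ (2 * d) := by positivity
  nlinarith

end Pool.Agent.H290R3
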